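import Pool.Agent.Helper4.PQ0.St2

/-! # Project PQS (MP_2b6189_al), module A2C: the combinatorics of the second case for `a = 2` -/

set_option autoImplicit false

namespace Pool.Agent.Helper79.PQ0

open Pool.Agent.Helper4.PQ0

section

variable {I : Type} [DecidableEq I] {p : ℕ} (C : CA I p)

theorem ca_pos (k : I) (hk : k ∈ C.K) : 0 < (C.O k).card :=
  Finset.card_pos.2 ⟨k, C.O_self k hk⟩

theorem ca_sum (k : I) (_hk : k ∈ C.K) (f : I → ℤ) (hf : ∀ j ∈ C.O k, f j = f k) :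
    ∑ j ∈ C.O k, f j = ((C.O k).card : ℤ) * f k := by
  rw [Finset.sum_congr rfl hf, Finset.sum_const, nsmul_eq_mul]

theorem ca_sumQ (k : I) (hk : k ∈ C.K) :
    ∑ j ∈ C.O k, (1 - 1 / ((C.O j).card : ℚ)) = (C.O k).card - 1 := by
  have h1 : ∀ j ∈ C.O k, (1 - 1 / ((C.O j).card : ℚ)) = 1 - 1 / ((C.O k).card : ℚ) := by
    intro j hj
    rw [C.O_eq k hk j hj]
  have h2 : ((C.O k).card : ℚ) ≠ 0 := by
    have := ca_pos C k hk
    exact_mod_cast this.ne'
  rw [Finset.sum_congr rfl h1, Finset.sum_const, nsmul_eq_mul]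
  field_simp

/-- the numbers `M k` -/
theorem ca_M (k : I) (hk : k ∈ C.K) : ∃ M : ℤ, C.g * M = ((C.O k).card : ℤ) * C.y k ^ 2 ∧
    IsCoprime M ((C.O k).card : ℤ) ∧ ((C.O k).card : ℤ) ∣ C.g := by
  have hr := ca_pos C k hk
  have hg := C.g1
  have hpg := C.pg
  have hy : 1 ≤ C.y k ^ 2 := by
    have := C.y_ne k hk
    have : 0 < C.y k ^ 2 := by positivity
    omega
  have hM1 : C.g * ((p : ℤ) - ((C.O k).card : ℤ) * C.u k) = ((C.O k).card : ℤ) * C.y k ^ 2 := by
    have := C.diag k hk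
    linear_combination -this
  have hr' : (1 : ℤ) ≤ (C.O k).card := by exact_mod_cast hr
  -- bounds
  have hM2 : 0 < (p : ℤ) - ((C.O k).card : ℤ) * C.u k := by
    have h1 : 0 < C.g * ((p : ℤ) - ((C.O k).card : ℤ) * C.u k) := by
      rw [hM1]
      positivity
    exact (mul_pos_iff_of_pos_left (by omega : 0 < C.g)).1 h1
  have hM3 : (p : ℤ) - ((C.O k).card : ℤ) * C.u k ≤ C.g + 1 := by
    have h1 : ((C.O k).card : ℤ) * C.y k ^ 2 ≤ C.g * (C.g + 1) := by
      rw [← C.sq, ← ca_sum C k hk (fun j => C.y j ^ 2) (fun j hj => by rw [(C.O_y k hk j hj).1])]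
      exact Finset.sum_le_sum_of_subset_of_nonneg (C.O_K k hk) (fun j _ _ => sq_nonneg _)
    rw [← hM1] at h1
    exact le_of_mul_le_mul_left h1 (by omega)
  have hpr : ¬ p ∣ (C.O k).card := by
    intro h
    have h1 : (p : ℤ) ∣ ((C.O k).card : ℤ) := by exact_mod_cast h
    have h2 : (p : ℤ) ∣ (p : ℤ) - ((C.O k).card : ℤ) * C.u k :=
      dvd_sub dvd_rfl (h1.mul_right _)
    have h3 := Int.le_of_dvd hM2 h2
    omega
  have h4 : (C.O k).card ∣ p - 1 :=
    ((Nat.Prime.coprime_iff_not_dvd C.prime).2 hpr).symm.dvd_of_dvd_mul_left (C.O_p k hk)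
  have h5 : ((C.O k).card : ℤ) ∣ 2 * C.g := by
    have h6 : ((p - 1 : ℕ) : ℤ) = 2 * C.g := by
      rw [Nat.cast_sub C.prime.one_lt.le]
      push_cast
      omega
    rw [← h6]
    exact_mod_cast h4
  obtain ⟨t, ht⟩ := h5
  have hcop : IsCoprime ((p : ℤ) - ((C.O k).card : ℤ) * C.u k) ((C.O k).card : ℤ) := by
    refine ⟨1, C.u k - t, ?_⟩
    linear_combination hpg + ht
  refine ⟨_, hM1, hcop, ?_⟩
  exact hcop.symm.dvd_of_dvd_mul_right ⟨C.y k ^ 2, hM1⟩

theorem ca_cop (k l : I) (hk : k ∈ C.K) (hl : l ∈ C.K) (hkl : l ∉ C.O k) :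
    Nat.Coprime (C.O k).card (C.O l).card := by
  obtain ⟨M, hM1, hM2, -⟩ := ca_M C k hk
  obtain ⟨M', hM1', hM2', -⟩ := ca_M C l hl
  obtain ⟨z, hz⟩ := C.off k hk l hl hkl
  have hg := C.g1
  have h1 : M * M' = (C.O k).card * ((C.O l).card * z ^ 2) := by
    have hg2 : C.g ^ 2 ≠ 0 := by positivity
    apply mul_left_cancel₀ hg2
    have h2 : C.y k ^ 2 * C.y l ^ 2 = C.g ^ 2 * z ^ 2 := by
      rw [← mul_pow, hz, mul_pow]
    linear_combination (C.g * M') * hM1 + ((C.O k).card : ℤ) * C.y k ^ 2 * hM1' +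
      ((C.O k).card : ℤ) * (C.O l).card * h2
  have h3 : ((C.O k).card : ℤ) ∣ M' := hM2.symm.dvd_of_dvd_mul_left ⟨_, h1⟩
  have h4 : IsCoprime ((C.O k).card : ℤ) ((C.O l).card : ℤ) :=
    hM2'.of_isCoprime_of_dvd_left h3
  exact Nat.isCoprime_iff_coprime.1 h4

/-- the induction over unions of classes -/
theorem ca_ind : ∀ (n : ℕ) (U : Finset I), U.card = n → U ⊆ C.K → (∀ k ∈ U, C.O k ⊆ U) →
    ∃ P : ℕ, 0 < P ∧ (P : ℤ) ∣ C.g ∧ (∀ l ∈ C.K, l ∉ U → Nat.Coprime P (C.O l).card) ∧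
      ∑ k ∈ U, (1 - 1 / ((C.O k).card : ℚ)) ≤ P - 1 := by
  intro n
  induction n using Nat.strong_induction_on with
  | _ n ih =>
    intro U hU hUK hUO
    rcases U.eq_empty_or_nonempty with rfl | ⟨k, hk⟩
    · exact ⟨1, one_pos, by simp, fun l _ _ => Nat.coprime_one_left _, by simp⟩
    · have hkK := hUK hk
      have hsub : C.O k ⊆ U := hUO k hk
      have hlt : (U \ C.O k).card < n := by
        rw [← hU]
        apply Finset.card_lt_card
        refine ⟨Finset.sdiff_subset, fun h => ?_⟩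
        have := h hk
        rw [Finset.mem_sdiff] at this
        exact this.2 (C.O_self k hkK)
      obtain ⟨P, hP0, hPg, hPc, hPs⟩ := ih _ hlt (U \ C.O k) rfl
        (Finset.sdiff_subset.trans hUK) (by
          intro j hj
          obtain ⟨hj1, hj2⟩ := Finset.mem_sdiff.1 hj
          intro i hi
          refine Finset.mem_sdiff.2 ⟨hUO j hj1 hi, fun hik => hj2 ?_⟩
          have h1 := C.O_eq k hkK i hik
          have h2 := C.O_eq j (hUK hj1) i hi
          rw [← h1, h2]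
          exact C.O_self j (hUK hj1))
      have hkc : Nat.Coprime P (C.O k).card := hPc k hkK (fun h =>
        (Finset.mem_sdiff.1 h).2 (C.O_self k hkK))
      obtain ⟨-, -, -, hkg⟩ := ca_M C k hkK
      have hr := ca_pos C k hkK
      refine ⟨P * (C.O k).card, Nat.mul_pos hP0 hr, ?_, ?_, ?_⟩
      · rw [Nat.cast_mul]
        exact (Nat.isCoprime_iff_coprime.2 hkc).mul_dvd hPg hkg
      · intro l hl hlU
        apply Nat.Coprime.mul_left
        · exact hPc l hl (fun h => hlU (Finset.sdiff_subset h))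
        · exact ca_cop C k l hkK hl (fun h => hlU (hsub h))
      · rw [← Finset.sum_sdiff hsub, ca_sumQ C k hkK]
        have h1 : (1 : ℚ) ≤ P := by exact_mod_cast hP0
        have h2 : (1 : ℚ) ≤ (C.O k).card := by exact_mod_cast hr
        push_cast
        nlinarith [mul_nonneg (sub_nonneg.2 h1) (sub_nonneg.2 h2)]

theorem ca_cnt : ∑ k ∈ C.K, (1 - 1 / ((C.O k).card : ℚ)) = C.g - 1 := by
  rw [Finset.sum_sub_distrib, Finset.sum_const, nsmul_eq_mul, mul_one]
  linarith [C.cnt]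

/-- two classes of size at least two are impossible -/
theorem ca_two (k l : I) (hk : k ∈ C.K) (hl : l ∈ C.K) (hkl : l ∉ C.O k)
    (h2k : 2 ≤ (C.O k).card) : (C.O l).card = 1 := by
  by_contra hne
  have hr := ca_pos C l hl
  have h2l : 2 ≤ (C.O l).card := by omega
  have hdisj : Disjoint (C.O k) (C.O l) := by
    rw [Finset.disjoint_left]
    intro i hi hi'
    apply hkl
    rw [← C.O_eq k hk i hi, C.O_eq l hl i hi']
    exact C.O_self l hl
  have hsub : C.O k ∪ C.O l ⊆ C.K := Finset.union_subset (C.O_K k hk) (C.O_K l hl)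
  obtain ⟨P, hP0, hPg, hPc, hPs⟩ := ca_ind C _ (C.K \ (C.O k ∪ C.O l)) rfl
    Finset.sdiff_subset (by
      intro j hj
      obtain ⟨hj1, hj2⟩ := Finset.mem_sdiff.1 hj
      intro i hi
      refine Finset.mem_sdiff.2 ⟨C.O_K j hj1 hi, fun hik => hj2 ?_⟩
      have h2 := C.O_eq j hj1 i hi
      have hjj := C.O_self j hj1
      rcases Finset.mem_union.1 hik with h | h
      · have h1 := C.O_eq k hk i h
        rw [← h2, h1] at hjj
        exact Finset.mem_union_left _ hjj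
      · have h1 := C.O_eq l hl i h
        rw [← h2, h1] at hjj
        exact Finset.mem_union_right _ hjj)
  have hck : Nat.Coprime P (C.O k).card := hPc k hk (fun h =>
    (Finset.mem_sdiff.1 h).2 (Finset.mem_union_left _ (C.O_self k hk)))
  have hcl : Nat.Coprime P (C.O l).card := hPc l hl (fun h =>
    (Finset.mem_sdiff.1 h).2 (Finset.mem_union_right _ (C.O_self l hl)))
  obtain ⟨-, -, -, hkg⟩ := ca_M C k hk
  obtain ⟨-, -, -, hlg⟩ := ca_M C l hl
  have h1 : ((P : ℤ) * (C.O k).card) ∣ C.g := (Nat.isCoprime_iff_coprime.2 hck).mul_dvd hPg hkg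
  have h2 : ((P : ℤ) * (C.O k).card * (C.O l).card) ∣ C.g := by
    refine IsCoprime.mul_dvd ?_ h1 hlg
    exact (Nat.isCoprime_iff_coprime.2 hcl).mul_left
      (Nat.isCoprime_iff_coprime.2 (ca_cop C k l hk hl hkl))
  have hg := C.g1
  have h3 := Int.le_of_dvd (by omega) h2
  have h4 := ca_cnt C
  rw [← Finset.sum_sdiff hsub, Finset.sum_union hdisj, ca_sumQ C k hk, ca_sumQ C l hl] at h4
  have h5 : ((P : ℚ) * (C.O k).card * (C.O l).card) ≤ C.g := by exact_mod_cast h3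
  have h6 : (1 : ℚ) ≤ P := by exact_mod_cast hP0
  have h7 : (2 : ℚ) ≤ (C.O k).card := by exact_mod_cast h2k
  have h8 : (2 : ℚ) ≤ (C.O l).card := by exact_mod_cast h2l
  nlinarith [mul_nonneg (sub_nonneg.2 h7) (sub_nonneg.2 h8),
    mul_nonneg (sub_nonneg.2 h6) (by nlinarith : (0 : ℚ) ≤ (C.O k).card * (C.O l).card - 1)]

theorem ca_ne : C.K.Nonempty := by
  by_contra h
  rw [Finset.not_nonempty_iff_eq_empty] at h
  have := C.sq
  have hg := C.g1
  rw [h, Finset.sum_empty] at this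
  nlinarith

/-- the class of size `g` -/
theorem ca_W : ∃ W ∈ C.K, ((C.O W).card : ℤ) = C.g ∧
    ∀ V ∈ C.K, V ∉ C.O W → (C.O V).card = 1 := by
  have hcnt := ca_cnt C
  by_cases h : ∃ W ∈ C.K, 2 ≤ (C.O W).card
  · obtain ⟨W, hW, hW2⟩ := h
    have h1 : ∀ V ∈ C.K, V ∉ C.O W → (C.O V).card = 1 := fun V hV hVW =>
      ca_two C W V hW hV hVW hW2
    refine ⟨W, hW, ?_, h1⟩
    rw [← Finset.sum_sdiff (C.O_K W hW), ca_sumQ C W hW] at hcnt
    have h2 : ∑ k ∈ C.K \ C.O W, (1 - 1 / ((C.O k).card : ℚ)) = 0 := by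
      apply Finset.sum_eq_zero
      intro V hV
      obtain ⟨hV1, hV2⟩ := Finset.mem_sdiff.1 hV
      rw [h1 V hV1 hV2]
      norm_num
    rw [h2] at hcnt
    have h3 : ((C.O W).card : ℚ) = C.g := by linarith
    exact_mod_cast h3
  · push Not at h
    obtain ⟨W, hW⟩ := ca_ne C
    have h1 : ∀ V ∈ C.K, (C.O V).card = 1 := by
      intro V hV
      have := h V hV
      have := ca_pos C V hV
      omega
    refine ⟨W, hW, ?_, fun V hV _ => h1 V hV⟩
    have h2 : ∑ k ∈ C.K, (1 - 1 / ((C.O k).card : ℚ)) = 0 := by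
      apply Finset.sum_eq_zero
      intro V hV
      rw [h1 V hV]
      norm_num
    rw [h2] at hcnt
    have h3 : (C.g : ℚ) = 1 := by linarith
    have h4 : C.g = 1 := by exact_mod_cast h3
    rw [h1 W hW, h4]
    norm_num

end

theorem hA2C : StA2C := by
  intro I _ p C
  obtain ⟨W, hW, hWg, hV1⟩ := ca_W C
  have hg := C.g1
  have hg0 : C.g ≠ 0 := by omega
  have hsub := C.O_K W hW
  have hyW : 1 ≤ C.y W ^ 2 := by
    have := C.y_ne W hW
    have : 0 < C.y W ^ 2 := by positivity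
    omega
  -- the elements outside the class
  have hV : ∀ V ∈ C.K \ C.O W, ∃ w : ℤ, C.y V = C.g * w := by
    intro V hV
    obtain ⟨hVK, hVW⟩ := Finset.mem_sdiff.1 hV
    obtain ⟨w, hw⟩ := C.O_g V hVK
    rw [hV1 V hVK hVW, Nat.cast_one, one_mul] at hw
    exact ⟨w, hw⟩
  have hsq := C.sq
  rw [← Finset.sum_sdiff hsub, ca_sum C W hW (fun j => C.y j ^ 2)
    (fun j hj => by rw [(C.O_y W hW j hj).1]), hWg] at hsq
  have hcard : ((C.K \ C.O W).card : ℤ) ≤ 1 := by
    have h1 : (C.g ^ 2) * ((C.K \ C.O W).card : ℤ) ≤ ∑ k ∈ C.K \ C.O W, C.y k ^ 2 := by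
      have h2 : ∑ k ∈ C.K \ C.O W, C.g ^ 2 = (C.g ^ 2) * ((C.K \ C.O W).card : ℤ) := by
        rw [Finset.sum_const, nsmul_eq_mul, mul_comm]
      rw [← h2]
      apply Finset.sum_le_sum
      intro V hVm
      obtain ⟨w, hw⟩ := hV V hVm
      have h3 := C.y_ne V (Finset.mem_sdiff.1 hVm).1
      have h4 : w ≠ 0 := by
        rintro rfl
        rw [mul_zero] at hw
        exact h3 hw
      have h5 : 1 ≤ w ^ 2 := by
        have : 0 < w ^ 2 := by positivity
        omega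
      rw [hw, mul_pow]
      nlinarith [sq_nonneg C.g]
    have h3 : C.g * (C.g * ((C.K \ C.O W).card : ℤ)) ≤ C.g * C.g := by
      nlinarith [mul_le_mul_of_nonneg_left hyW (by omega : (0 : ℤ) ≤ C.g)]
    have h4 := le_of_mul_le_mul_left h3 (by omega : 0 < C.g)
    have h5 : C.g * ((C.K \ C.O W).card : ℤ) ≤ C.g * 1 := by rwa [mul_one]
    exact le_of_mul_le_mul_left h5 (by omega : 0 < C.g)
  have hdim := C.dim
  rw [← Finset.sum_sdiff hsub, ca_sum C W hW (fun j => C.y j * (C.d j : ℤ))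
    (fun j hj => by rw [(C.O_y W hW j hj).1, (C.O_y W hW j hj).2]), hWg] at hdim
  rcases Nat.lt_or_ge (C.K \ C.O W).card 1 with h0 | h1
  · left
    have h2 : (C.K \ C.O W) = ∅ := Finset.card_eq_zero.1 (by omega)
    rw [h2, Finset.sum_empty, zero_add] at hdim
    have h3 : C.y W * (C.d W : ℤ) = 1 := by
      apply mul_left_cancel₀ hg0
      rw [mul_one]
      exact hdim
    refine ⟨W, hW, ?_⟩
    have h4 : (C.d W : ℤ) ∣ 1 := ⟨C.y W, by rw [← h3, mul_comm]⟩
    have h5 : C.d W ∣ 1 := by exact_mod_cast h4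
    exact Nat.dvd_one.1 h5
  · right
    have h2 : (C.K \ C.O W).card = 1 := by
      have : (C.K \ C.O W).card ≤ 1 := by exact_mod_cast hcard
      omega
    obtain ⟨V, hVe⟩ := Finset.card_eq_one.1 h2
    have hVm : V ∈ C.K \ C.O W := by
      rw [hVe]
      exact Finset.mem_singleton_self V
    obtain ⟨hVK, hVW⟩ := Finset.mem_sdiff.1 hVm
    obtain ⟨w, hw⟩ := hV V hVm
    rw [hVe, Finset.sum_singleton, hw] at hdim
    have h3 : w * (C.d V : ℤ) + C.y W * (C.d W : ℤ) = 1 := by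
      apply mul_left_cancel₀ hg0
      rw [mul_one]
      linear_combination hdim
    refine ⟨V, hVK, ?_, W, hW, ?_, ?_⟩
    · obtain ⟨j, hj⟩ := Finset.card_eq_one.1 (hV1 V hVK hVW)
      have h4 := C.O_self V hVK
      rw [hj, Finset.mem_singleton] at h4
      rw [hj, ← h4]
    · rintro rfl
      exact hVW (C.O_self W hW)
    · exact Nat.isCoprime_iff_coprime.1 ⟨w, C.y W, h3⟩

end Pool.Agent.Helper79.PQ0
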